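import Mathlib

/-! Sums of negative powers over sparse sets. -/

set_option autoImplicit false

open Finset

namespace Pool.Agent.Y977.NV

theorem dy {ι : Type*} (V : Finset ι) (g : ι → ℝ) {Y A δ : ℝ} (hY : 0 < Y) (hA : 0 ≤ A)
    (hδ : 0 < δ) (h1 : ∀ v ∈ V, Y ≤ g v)
    (h2 : ∀ x, Y ≤ x → ((V.filter (fun v => g v ≤ x)).card : ℝ) ≤ A * (x / Y)) :
    ∑ v ∈ V, (g v) ^ (-1 - δ) ≤ A * (2 / (1 - 2 ^ (-δ))) * Y ^ (-1 - δ) := by
  classical
  have hk : ∀ v, ∃ k : ℕ, v ∈ V → (2 : ℝ) ^ k * Y ≤ g v ∧ g v < 2 ^ (k + 1) * Y := by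
    intro v
    by_cases hv : v ∈ V
    · have h3 : 1 ≤ g v / Y := by rw [le_div_iff₀ hY, one_mul]; exact h1 v hv
      obtain ⟨k, h4, h5⟩ := exists_nat_pow_near h3 (one_lt_two)
      refine ⟨k, fun _ => ⟨?_, ?_⟩⟩
      · rwa [le_div_iff₀ hY] at h4
      · rwa [div_lt_iff₀ hY] at h5
    · exact ⟨0, fun h => absurd h hv⟩
  choose k hk using hk
  obtain ⟨N, hN⟩ : ∃ N, ∀ v ∈ V, k v ∈ range N := by
    refine ⟨V.sup k + 1, fun v hv => ?_⟩
    rw [mem_range]
    have := le_sup (f := k) hv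
    omega
  set r : ℝ := 2 ^ (-δ) with hr
  have hr0 : 0 < r := by positivity
  have hr1 : r < 1 := Real.rpow_lt_one_of_one_lt_of_neg one_lt_two (by linarith)
  have hblock : ∀ j ∈ range N, ∑ v ∈ V with k v = j, (g v) ^ (-1 - δ) ≤
      2 * A * Y ^ (-1 - δ) * r ^ j := by
    intro j _
    have h3 : ∀ v ∈ V.filter (fun v => k v = j), (g v) ^ (-1 - δ) ≤ ((2 : ℝ) ^ j * Y) ^ (-1 - δ) := by
      intro v hv
      obtain ⟨hv1, hv2⟩ := mem_filter.1 hv
      have h4 := (hk v hv1).1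
      rw [hv2] at h4
      exact Real.rpow_le_rpow_of_nonpos (by positivity) h4 (by linarith)
    have h4 : ((V.filter (fun v => k v = j)).card : ℝ) ≤ A * 2 ^ (j + 1) := by
      have h5 : Y ≤ 2 ^ (j + 1) * Y := by
        have : (1 : ℝ) ≤ 2 ^ (j + 1) := one_le_pow₀ (by norm_num)
        nlinarith
      have h6 := h2 (2 ^ (j + 1) * Y) h5
      rw [mul_div_cancel_right₀ _ hY.ne'] at h6
      refine le_trans ?_ h6
      have h7 : V.filter (fun v => k v = j) ⊆ V.filter (fun v => g v ≤ 2 ^ (j + 1) * Y) := by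
        intro v hv
        obtain ⟨hv1, hv2⟩ := mem_filter.1 hv
        refine mem_filter.2 ⟨hv1, ?_⟩
        have := (hk v hv1).2
        rw [hv2] at this
        exact this.le
      exact_mod_cast card_le_card h7
    calc ∑ v ∈ V with k v = j, (g v) ^ (-1 - δ) ≤
        ∑ v ∈ V with k v = j, ((2 : ℝ) ^ j * Y) ^ (-1 - δ) := sum_le_sum h3
      _ = ((V.filter (fun v => k v = j)).card : ℝ) * ((2 : ℝ) ^ j * Y) ^ (-1 - δ) := by
          rw [sum_const, nsmul_eq_mul]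
      _ ≤ A * 2 ^ (j + 1) * ((2 : ℝ) ^ j * Y) ^ (-1 - δ) := by gcongr
      _ = 2 * A * Y ^ (-1 - δ) * r ^ j := by
          rw [Real.mul_rpow (by positivity) hY.le]
          have h8 : ((2 : ℝ) ^ j) ^ (-1 - δ) = ((2 : ℝ) ^ j)⁻¹ * r ^ j := by
            rw [hr, ← Real.rpow_natCast (2 ^ (-δ)) j, ← Real.rpow_mul (by norm_num),
              ← Real.rpow_natCast 2 j, ← Real.rpow_mul (by norm_num), ← Real.rpow_neg (by norm_num),
              ← Real.rpow_add (by norm_num)]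
            congr 1
            ring
          rw [h8, pow_succ]
          field_simp
  rw [← sum_fiberwise_of_maps_to hN (fun v => (g v) ^ (-1 - δ))]
  refine (sum_le_sum hblock).trans ?_
  rw [← mul_sum]
  have hgeo : ∑ j ∈ range N, r ^ j ≤ 1 / (1 - r) := by
    rw [le_div_iff₀ (by linarith), mul_comm, mul_neg_geom_sum]
    have : 0 ≤ r ^ N := by positivity
    linarith
  calc 2 * A * Y ^ (-1 - δ) * ∑ j ∈ range N, r ^ j ≤ 2 * A * Y ^ (-1 - δ) * (1 / (1 - r)) := by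
        gcongr
    _ = _ := by ring

end Pool.Agent.Y977.NV
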