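import Pool.Agent.Y773.NV.St1
import Pool.Agent.Y977.NV.Dy

/-! Project NV, piece OD: the off-diagonal sum. -/

set_option autoImplicit false

open Complex MeasureTheory NumberField Finset

namespace Pool.Agent.Y977.NV

open Pool.Agent.Y773.NV

variable {K : Type} [Field K] [NumberField K]

omit [NumberField K] in
theorem rel_symm {𝔢 𝔲 𝔳 : Ideal (𝓞 K)} (h : Rel 𝔢 𝔲 𝔳) : Rel 𝔢 𝔳 𝔲 := by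
  obtain ⟨x, y, hx, hy, hx1, hy1, hxy⟩ := h
  exact ⟨y, x, hy, hx, hy1, hx1, hxy.symm⟩

theorem one_le_nm {𝔞 : Ideal (𝓞 K)} (h : 𝔞 ≠ ⊥) : 1 ≤ nm 𝔞 := by
  have h0 : Ideal.absNorm 𝔞 ≠ 0 := by rwa [Ne, Ideal.absNorm_eq_zero_iff]
  have : 1 ≤ Ideal.absNorm 𝔞 := Nat.one_le_iff_ne_zero.2 h0
  unfold nm
  exact_mod_cast this

/-- the sum over the second ideal -/
theorem inner {C₀ δ : ℝ} (hC₀ : 1 ≤ C₀) (hδ : 0 < δ) {𝔢 : Ideal (𝓞 K)} (h𝔢 : 𝔢 ≠ ⊥)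
    (hcnt : ∀ (𝔳 : Ideal (𝓞 K)) (x : ℝ) (S : Finset (Ideal (𝓞 K))), 𝔳 ≠ ⊥ → 0 ≤ x →
      (∀ 𝔲 ∈ S, 𝔲 ≠ ⊥ ∧ nm 𝔲 ≤ x ∧ Rel 𝔢 𝔲 𝔳) → (S.card : ℝ) ≤ C₀ * (1 + x / nm 𝔢))
    (hsep : ∀ (𝔲 𝔳 : Ideal (𝓞 K)) (x : ℝ), 𝔲 ≠ ⊥ → 𝔳 ≠ ⊥ → 𝔲 ≠ 𝔳 → nm 𝔲 ≤ x → nm 𝔳 ≤ x →
      Rel 𝔢 𝔲 𝔳 → nm 𝔢 ≤ C₀ * x) {𝔲 : Ideal (𝓞 K)} (h𝔲 : 𝔲 ≠ ⊥) (V : Finset (Ideal (𝓞 K)))
    (hV : ∀ 𝔳 ∈ V, 𝔳 ≠ ⊥ ∧ 𝔲 ≠ 𝔳 ∧ nm 𝔲 ≤ nm 𝔳 ∧ Rel 𝔢 𝔲 𝔳) :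
    ∑ 𝔳 ∈ V, nm 𝔳 ^ (-1 - δ) ≤ (C₀ + 1) * (2 / (1 - 2 ^ (-δ))) * C₀ ^ (1 + δ) / nm 𝔢 := by
  have he := one_le_nm h𝔢
  have hY : 0 < nm 𝔢 / C₀ := by positivity
  have hr1 : (2 : ℝ) ^ (-δ) < 1 := Real.rpow_lt_one_of_one_lt_of_neg one_lt_two (by linarith)
  have h := dy V (fun 𝔳 => nm 𝔳) (Y := nm 𝔢 / C₀) (A := C₀ + 1) hY (by linarith) hδ ?_ ?_
  · refine h.trans ?_
    rw [mul_div_assoc]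
    have h1 : 0 ≤ (C₀ + 1) * (2 / (1 - 2 ^ (-δ))) := by
      have : 0 < 1 - (2 : ℝ) ^ (-δ) := by linarith
      positivity
    refine mul_le_mul_of_nonneg_left ?_ h1
    rw [Real.div_rpow (by linarith) (by linarith)]
    have h2 : nm 𝔢 ^ (-1 - δ) ≤ (nm 𝔢)⁻¹ := by
      rw [← Real.rpow_neg_one]
      exact Real.rpow_le_rpow_of_exponent_le he (by linarith)
    have h3 : C₀ ^ (-1 - δ) = (C₀ ^ (1 + δ))⁻¹ := by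
      rw [← Real.rpow_neg (by linarith)]
      congr 1
      ring
    rw [h3, div_inv_eq_mul, div_eq_mul_inv, mul_comm]
    have : 0 ≤ C₀ ^ (1 + δ) := by positivity
    gcongr
  · intro 𝔳 hv
    obtain ⟨h1, h2, h3, h4⟩ := hV 𝔳 hv
    rw [div_le_iff₀ (by linarith), mul_comm]
    exact hsep 𝔲 𝔳 (nm 𝔳) h𝔲 h1 h2 h3 le_rfl h4
  · intro x hx
    have hx0 : 0 ≤ x := by linarith
    have h1 := hcnt 𝔲 x (V.filter fun 𝔳 => nm 𝔳 ≤ x) h𝔲 hx0 (by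
      intro 𝔳 hv
      obtain ⟨hv1, hv2⟩ := mem_filter.1 hv
      obtain ⟨h1, h2, h3, h4⟩ := hV 𝔳 hv1
      exact ⟨h1, hv2, rel_symm h4⟩)
    refine h1.trans ?_
    have h2 : 1 ≤ x / (nm 𝔢 / C₀) := by rw [le_div_iff₀ hY, one_mul]; exact hx
    have h3 : x / (nm 𝔢 / C₀) = C₀ * (x / nm 𝔢) := by
      rw [div_div_eq_mul_div]; ring
    rw [h3] at h2 ⊢
    nlinarith

/-- the sum over the ordered pairs -/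
theorem half {C₁ C₂ δ : ℝ} (hC₁ : 0 ≤ C₁) {𝔢 : Ideal (𝓞 K)} (h𝔢 : 𝔢 ≠ ⊥)
    (h1 : ∀ (𝔲 : Ideal (𝓞 K)) (V : Finset (Ideal (𝓞 K))), 𝔲 ≠ ⊥ →
      (∀ 𝔳 ∈ V, 𝔳 ≠ ⊥ ∧ 𝔲 ≠ 𝔳 ∧ nm 𝔲 ≤ nm 𝔳 ∧ Rel 𝔢 𝔲 𝔳) → ∑ 𝔳 ∈ V, nm 𝔳 ^ (-1 - δ) ≤ C₁ / nm 𝔢)
    (h2 : ∀ S : Finset (Ideal (𝓞 K)), (∀ 𝔞 ∈ S, 𝔞 ≠ ⊥) → ∑ 𝔞 ∈ S, nm 𝔞 ^ (-1 - δ) ≤ C₂)
    (S : Finset (Ideal (𝓞 K) × Ideal (𝓞 K)))
    (hS : ∀ p ∈ S, p.1 ≠ ⊥ ∧ p.2 ≠ ⊥ ∧ p.1 ≠ p.2 ∧ nm p.1 ≤ nm p.2 ∧ Rel 𝔢 p.1 p.2) :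
    ∑ p ∈ S, (nm p.1 * nm p.2) ^ (-1 - δ) ≤ C₂ * (C₁ / nm 𝔢) := by
  classical
  have he := one_le_nm h𝔢
  rw [← sum_fiberwise_of_maps_to (g := fun p : Ideal (𝓞 K) × Ideal (𝓞 K) => p.1)
    (t := S.image fun p => p.1) (fun p hp => mem_image_of_mem _ hp)]
  have hb : ∀ 𝔲 ∈ S.image (fun p => p.1), ∑ p ∈ S with p.1 = 𝔲, (nm p.1 * nm p.2) ^ (-1 - δ) ≤
      nm 𝔲 ^ (-1 - δ) * (C₁ / nm 𝔢) := by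
    intro 𝔲 hu
    obtain ⟨p0, hp0, rfl⟩ := mem_image.1 hu
    obtain ⟨hu0, -⟩ := hS p0 hp0
    have e1 : ∑ p ∈ S with p.1 = p0.1, (nm p.1 * nm p.2) ^ (-1 - δ) =
        ∑ 𝔳 ∈ (S.filter fun p => p.1 = p0.1).image (fun p => p.2),
          nm p0.1 ^ (-1 - δ) * nm 𝔳 ^ (-1 - δ) := by
      rw [sum_image]
      · refine sum_congr rfl fun p hp => ?_
        obtain ⟨hp1, hp2⟩ := mem_filter.1 hp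
        rw [Real.mul_rpow (by unfold nm; positivity) (by unfold nm; positivity), hp2]
      · intro p hp p' hp' h
        obtain ⟨hp1, hp2⟩ := mem_filter.1 (mem_coe.1 hp)
        obtain ⟨hp1', hp2'⟩ := mem_filter.1 (mem_coe.1 hp')
        exact Prod.ext (hp2.trans hp2'.symm) h
    rw [e1, ← mul_sum]
    have h3 : 0 ≤ nm p0.1 ^ (-1 - δ) := by unfold nm; positivity
    refine mul_le_mul_of_nonneg_left (h1 p0.1 _ hu0 ?_) h3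
    intro 𝔳 hv
    obtain ⟨p, hp, rfl⟩ := mem_image.1 hv
    obtain ⟨hp1, hp2⟩ := mem_filter.1 hp
    obtain ⟨a1, a2, a3, a4, a5⟩ := hS p hp1
    rw [hp2] at a3 a4 a5
    exact ⟨a2, a3, a4, a5⟩
  refine (sum_le_sum hb).trans ?_
  rw [← sum_mul]
  have h4 : 0 ≤ C₁ / nm 𝔢 := by positivity
  refine mul_le_mul_of_nonneg_right (h2 _ ?_) h4
  intro 𝔲 hu
  obtain ⟨p, hp, rfl⟩ := mem_image.1 hu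
  exact (hS p hp).1

theorem t_od : St_ORT → St_CNT → St_DIV → St_OD := by
  classical
  intro hORT hCNT hDIV K _ _ _ hK δ hδ
  obtain ⟨C₀, hC₀, hcnt⟩ := hCNT K hK
  obtain ⟨C₂, hC₂, hdv, hsum⟩ := hDIV K δ hδ
  set C₁ : ℝ := (C₀ + 1) * (2 / (1 - 2 ^ (-δ))) * C₀ ^ (1 + δ) with hC₁
  have hr1 : (2 : ℝ) ^ (-δ) < 1 := Real.rpow_lt_one_of_one_lt_of_neg one_lt_two (by linarith)
  have hC₁0 : 0 ≤ C₁ := by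
    have : 0 < 1 - (2 : ℝ) ^ (-δ) := by linarith
    positivity
  set h : ℝ := (Nat.card (ClassGroup (𝓞 K)) : ℝ) with hh
  have hh0 : 0 ≤ h := by positivity
  refine ⟨max 1 (h * (2 * (C₂ * C₁)) * C₂), le_max_left _ _, ?_⟩
  intro 𝔣 h𝔣 h𝔣t S hS
  have hdvs : ∀ 𝔢 ∈ dvs 𝔣, 𝔢 ≠ ⊥ := by
    intro 𝔢 he h0
    rw [mem_dvs h𝔣, h0] at he
    exact h𝔣 (le_bot_iff.1 (Ideal.dvd_iff_le.1 he))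
  have key : ∀ 𝔢 ∈ dvs 𝔣, ∑ p ∈ S with Rel 𝔢 p.1 p.2, (nm p.1 * nm p.2) ^ (-1 - δ) ≤
      2 * (C₂ * C₁) / nm 𝔢 := by
    intro 𝔢 he
    have h𝔢 := hdvs 𝔢 he
    obtain ⟨c1, c2⟩ := hcnt 𝔢 h𝔢
    have hin := fun (𝔲 : Ideal (𝓞 K)) (V : Finset (Ideal (𝓞 K))) (hu : 𝔲 ≠ ⊥)
      (hV : ∀ 𝔳 ∈ V, 𝔳 ≠ ⊥ ∧ 𝔲 ≠ 𝔳 ∧ nm 𝔲 ≤ nm 𝔳 ∧ Rel 𝔢 𝔲 𝔳) =>
      inner hC₀ hδ h𝔢 c1 c2 hu V hV
    rw [← sum_filter_add_sum_filter_not (S.filter fun p => Rel 𝔢 p.1 p.2)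
      (fun p => nm p.1 ≤ nm p.2)]
    have g1 := half hC₁0 h𝔢 hin hsum ((S.filter fun p => Rel 𝔢 p.1 p.2).filter
      (fun p => nm p.1 ≤ nm p.2)) (by
        intro p hp
        obtain ⟨hp1, hp2⟩ := mem_filter.1 hp
        obtain ⟨hp3, hp4⟩ := mem_filter.1 hp1
        obtain ⟨a1, a2, a3, a4, a5⟩ := hS p hp3
        exact ⟨a1, a2, a5, hp2, hp4⟩)
    have g2 := half hC₁0 h𝔢 hin hsum (((S.filter fun p => Rel 𝔢 p.1 p.2).filter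
      (fun p => ¬ nm p.1 ≤ nm p.2)).image Prod.swap) (by
        intro p hp
        obtain ⟨p', hp', rfl⟩ := mem_image.1 hp
        obtain ⟨hp1, hp2⟩ := mem_filter.1 hp'
        obtain ⟨hp3, hp4⟩ := mem_filter.1 hp1
        obtain ⟨a1, a2, a3, a4, a5⟩ := hS p' hp3
        push Not at hp2
        exact ⟨a2, a1, fun h => a5 h.symm, hp2.le, rel_symm hp4⟩)
    rw [sum_image (fun p _ p' _ h => Prod.swap_injective h)] at g2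
    have g3 : ∑ p ∈ (S.filter fun p => Rel 𝔢 p.1 p.2).filter (fun p => ¬ nm p.1 ≤ nm p.2),
        (nm p.1 * nm p.2) ^ (-1 - δ) =
        ∑ p ∈ (S.filter fun p => Rel 𝔢 p.1 p.2).filter (fun p => ¬ nm p.1 ≤ nm p.2),
        (nm p.swap.1 * nm p.swap.2) ^ (-1 - δ) := by
      refine sum_congr rfl fun p _ => ?_
      rw [Prod.fst_swap, Prod.snd_swap, mul_comm]
    rw [g3]
    calc _ ≤ C₂ * (C₁ / nm 𝔢) + C₂ * (C₁ / nm 𝔢) := add_le_add g1 g2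
      _ = _ := by ring
  have hterm : ∀ p ∈ S, ‖WW 𝔣 p.1 p.2‖ * (nm p.1 * nm p.2) ^ (-1 - δ) ≤
      h * ∑ 𝔢 ∈ dvs 𝔣, nm 𝔢 * (if Rel 𝔢 p.1 p.2 then (nm p.1 * nm p.2) ^ (-1 - δ) else 0) := by
    intro p hp
    obtain ⟨a1, a2, a3, a4, a5⟩ := hS p hp
    have h1 := hORT K 𝔣 p.1 p.2 h𝔣 h𝔣t a3 a4
    have h2 : 0 ≤ (nm p.1 * nm p.2) ^ (-1 - δ) := by unfold nm; positivity
    refine (mul_le_mul_of_nonneg_right h1 h2).trans (le_of_eq ?_)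
    rw [mul_assoc, sum_mul]
    congr 1
    refine sum_congr rfl fun 𝔢 _ => ?_
    by_cases hr : Rel 𝔢 p.1 p.2
    · rw [if_pos hr, if_pos hr]
    · rw [if_neg hr, if_neg hr]
      ring
  refine (sum_le_sum hterm).trans ?_
  rw [← mul_sum, sum_comm]
  have h3 : ∀ 𝔢 ∈ dvs 𝔣, ∑ p ∈ S, nm 𝔢 * (if Rel 𝔢 p.1 p.2 then
      (nm p.1 * nm p.2) ^ (-1 - δ) else 0) ≤ 2 * (C₂ * C₁) := by
    intro 𝔢 he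
    rw [← mul_sum, ← sum_filter]
    have hne := one_le_nm (hdvs 𝔢 he)
    have h4 := key 𝔢 he
    rw [le_div_iff₀ (by linarith), mul_comm] at h4
    exact h4
  have h5 : ∑ 𝔢 ∈ dvs 𝔣, ∑ p ∈ S, nm 𝔢 * (if Rel 𝔢 p.1 p.2 then
      (nm p.1 * nm p.2) ^ (-1 - δ) else 0) ≤ ((dvs 𝔣).card : ℝ) * (2 * (C₂ * C₁)) := by
    refine (sum_le_sum h3).trans (le_of_eq ?_)
    rw [sum_const, nsmul_eq_mul]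
  have h6 := hdv 𝔣 h𝔣
  have h7 : 0 ≤ 2 * (C₂ * C₁) := by positivity
  have h8 : 0 ≤ nm 𝔣 ^ δ := by unfold nm; positivity
  calc h * ∑ 𝔢 ∈ dvs 𝔣, ∑ p ∈ S, nm 𝔢 * (if Rel 𝔢 p.1 p.2 then
      (nm p.1 * nm p.2) ^ (-1 - δ) else 0) ≤ h * (((dvs 𝔣).card : ℝ) * (2 * (C₂ * C₁))) := by gcongr
    _ ≤ h * ((C₂ * nm 𝔣 ^ δ) * (2 * (C₂ * C₁))) := by gcongr
    _ = (h * (2 * (C₂ * C₁)) * C₂) * nm 𝔣 ^ δ := by ring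
    _ ≤ _ := by gcongr; exact le_max_right _ _

end Pool.Agent.Y977.NV
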